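import Pool.Agent.H123Z.GSC.Defs

set_option autoImplicit false
set_option linter.all false

namespace Pool.Agent.H123Z.GSC

open Finset PowerSeries Filter Topology

theorem sum_conv_le (a b : ℕ → ℝ) (ha : ∀ i, 0 ≤ a i) (hb : ∀ i, 0 ≤ b i) (K : ℕ) :
    ∑ k ∈ range K, ∑ y ∈ antidiagonal k, a y.1 * b y.2 ≤ (∑ i ∈ range K, a i) * ∑ j ∈ range K, b j := by
  rw [Finset.sum_mul_sum, ← Finset.sum_product']
  have h1 : ∑ k ∈ range K, ∑ x ∈ antidiagonal k, a x.1 * b x.2 =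
      ∑ k ∈ range K, ∑ x ∈ ((range K ×ˢ range K).filter fun x => x.1 + x.2 < K).filter (fun x => x.1 + x.2 = k),
        a x.1 * b x.2 := by
    apply Finset.sum_congr rfl
    intro k hk
    rw [Finset.mem_range] at hk
    apply Finset.sum_congr _ (fun _ _ => rfl)
    ext x
    simp only [Finset.HasAntidiagonal.mem_antidiagonal, Finset.mem_filter, Finset.mem_product, Finset.mem_range]
    omega
  rw [h1, Finset.sum_fiberwise_of_maps_to]
  · apply Finset.sum_le_sum_of_subset_of_nonneg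
    · exact Finset.filter_subset _ _
    · intro x _ _
      exact mul_nonneg (ha _) (hb _)
  · intro x hx
    rw [Finset.mem_filter] at hx
    rw [Finset.mem_range]
    exact hx.2

section Van

variable {R : Type} [Ring R]

theorem Van.mono {K K' : ℕ} {f : PowerSeries R} (h : Van K f) (hK : K' ≤ K) : Van K' f :=
  fun k hk => h k (by omega)

theorem Van.zero (K : ℕ) : Van K (0 : PowerSeries R) := fun k _ => by simp

theorem Van.add {K : ℕ} {f g : PowerSeries R} (hf : Van K f) (hg : Van K g) : Van K (f + g) :=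
  fun k hk => by rw [map_add, hf k hk, hg k hk, add_zero]

theorem Van.neg {K : ℕ} {f : PowerSeries R} (hf : Van K f) : Van K (-f) :=
  fun k hk => by rw [map_neg, hf k hk, neg_zero]

theorem Van.sub {K : ℕ} {f g : PowerSeries R} (hf : Van K f) (hg : Van K g) : Van K (f - g) :=
  fun k hk => by rw [map_sub, hf k hk, hg k hk, sub_zero]

theorem Van.mul {K L : ℕ} {f g : PowerSeries R} (hf : Van K f) (hg : Van L g) : Van (K + L) (f * g) := by
  intro k hk
  rw [coeff_mul]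
  refine Finset.sum_eq_zero fun y hy => ?_
  rw [Finset.HasAntidiagonal.mem_antidiagonal] at hy
  by_cases h : y.1 < K
  · rw [hf _ h, zero_mul]
  · rw [hg y.2 (by omega), mul_zero]

theorem van_zero (f : PowerSeries R) : Van 0 f := fun k hk => absurd hk (Nat.not_lt_zero k)

theorem Van.mul_right {K : ℕ} {f : PowerSeries R} (hf : Van K f) (g : PowerSeries R) : Van K (f * g) := by
  simpa using hf.mul (van_zero g)

theorem Van.mul_left {K : ℕ} {g : PowerSeries R} (hg : Van K g) (f : PowerSeries R) : Van K (f * g) := by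
  simpa using (van_zero f).mul hg

theorem van_one_iff {f : PowerSeries R} : Van 1 f ↔ coeff 0 f = 0 :=
  ⟨fun h => h 0 (by omega), fun h k hk => by obtain rfl : k = 0 := by omega
                                             exact h⟩

theorem van_X_pow (n : ℕ) : Van n (X ^ n : PowerSeries R) := by
  intro k hk
  rw [coeff_X_pow, if_neg (by omega)]

theorem van_X : Van 1 (X : PowerSeries R) := by simpa using van_X_pow (R := R) 1

theorem Van.sum {κ : Type*} {K : ℕ} (s : Finset κ) (f : κ → PowerSeries R) (h : ∀ i ∈ s, Van K (f i)) :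
    Van K (∑ i ∈ s, f i) := by
  intro k hk
  rw [map_sum]
  exact Finset.sum_eq_zero fun i hi => h i hi k hk

/-- The finitely supported series form a subring. -/
def finS (R : Type) [Ring R] : Subring (PowerSeries R) where
  carrier := {f | FinS f}
  mul_mem' := by
    rintro f g ⟨N, hN⟩ ⟨M, hM⟩
    refine ⟨N + M, fun k hk => ?_⟩
    rw [coeff_mul]
    refine Finset.sum_eq_zero fun y hy => ?_
    rw [Finset.HasAntidiagonal.mem_antidiagonal] at hy
    by_cases h : N ≤ y.1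
    · rw [hN _ h, zero_mul]
    · rw [hM y.2 (by omega), mul_zero]
  one_mem' := ⟨1, fun k hk => by rw [coeff_one, if_neg (by omega)]⟩
  add_mem' := by
    rintro f g ⟨N, hN⟩ ⟨M, hM⟩
    exact ⟨N + M, fun k hk => by rw [map_add, hN k (by omega), hM k (by omega), add_zero]⟩
  zero_mem' := ⟨0, fun k _ => by simp⟩
  neg_mem' := by
    rintro f ⟨N, hN⟩
    exact ⟨N, fun k hk => by rw [map_neg, hN k hk, neg_zero]⟩

theorem mem_finS {f : PowerSeries R} : f ∈ finS R ↔ FinS f := Iff.rfl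

theorem finS_C (a : R) : (C a : PowerSeries R) ∈ finS R :=
  ⟨1, fun k hk => by rw [coeff_C, if_neg (by omega)]⟩

theorem finS_X : (X : PowerSeries R) ∈ finS R :=
  ⟨2, fun k hk => by rw [coeff_X, if_neg (by omega)]⟩

/-- Series with all coefficients in a subsemiring. -/
def cf (S : Subsemiring R) : Subsemiring (PowerSeries R) where
  carrier := {f | ∀ k, coeff k f ∈ S}
  mul_mem' := by
    intro f g hf hg k
    rw [coeff_mul]
    exact S.sum_mem fun y _ => S.mul_mem (hf _) (hg _)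
  one_mem' := by
    intro k
    rw [coeff_one]
    split_ifs
    · exact S.one_mem
    · exact S.zero_mem
  add_mem' := by
    intro f g hf hg k
    rw [map_add]
    exact S.add_mem (hf k) (hg k)
  zero_mem' := fun k => by simpa using S.zero_mem

theorem mem_cf {S : Subsemiring R} {f : PowerSeries R} : f ∈ cf S ↔ ∀ k, coeff k f ∈ S := Iff.rfl

theorem cf_C {S : Subsemiring R} {a : R} (ha : a ∈ S) : (C a : PowerSeries R) ∈ cf S := by
  intro k
  rw [coeff_C]
  split_ifs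
  · exact ha
  · exact S.zero_mem

theorem cf_X {S : Subsemiring R} : (X : PowerSeries R) ∈ cf S := by
  intro k
  rw [coeff_X]
  split_ifs
  · exact S.one_mem
  · exact S.zero_mem

/-- Series with all coefficients in a subring. -/
def cfr (S : Subring R) : Subring (PowerSeries R) where
  toSubsemiring := cf S.toSubsemiring
  neg_mem' := by
    intro f hf k
    rw [map_neg]
    exact S.neg_mem (hf k)

theorem mem_cfr {S : Subring R} {f : PowerSeries R} : f ∈ cfr S ↔ ∀ k, coeff k f ∈ S := Iff.rfl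

theorem cfr_C {S : Subring R} {a : R} (ha : a ∈ S) : (C a : PowerSeries R) ∈ cfr S :=
  cf_C (S := S.toSubsemiring) ha

theorem cfr_X {S : Subring R} : (X : PowerSeries R) ∈ cfr S := cf_X (S := S.toSubsemiring)

/-- Truncation as a series. -/
noncomputable def trn (K : ℕ) (f : PowerSeries R) : PowerSeries R :=
  PowerSeries.mk fun k => if k < K then coeff k f else 0

theorem coeff_trn (K : ℕ) (f : PowerSeries R) (k : ℕ) :
    coeff k (trn K f) = if k < K then coeff k f else 0 := by simp [trn]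

theorem coeff_sub_trn (K : ℕ) (f : PowerSeries R) (k : ℕ) :
    coeff k (f - trn K f) = if k < K then 0 else coeff k f := by
  rw [map_sub, coeff_trn]
  split_ifs <;> simp

theorem trn_finS (K : ℕ) (f : PowerSeries R) : trn K f ∈ finS R :=
  ⟨K, fun k hk => by rw [coeff_trn, if_neg (by omega)]⟩

theorem van_sub_trn (K : ℕ) (f : PowerSeries R) : Van K (f - trn K f) :=
  fun k hk => by rw [coeff_sub_trn, if_pos hk]

theorem trn_cf {S : Subsemiring R} {f : PowerSeries R} (hf : f ∈ cf S) (K : ℕ) : trn K f ∈ cf S := by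
  intro k
  rw [coeff_trn]
  split_ifs
  · exact hf k
  · exact S.zero_mem

theorem sub_trn_cf {S : Subsemiring R} {f : PowerSeries R} (hf : f ∈ cf S) (K : ℕ) :
    f - trn K f ∈ cf S := by
  intro k
  rw [coeff_sub_trn]
  split_ifs
  · exact S.zero_mem
  · exact hf k

/-- The inverse of `1 - f`. -/
noncomputable def iv (f : PowerSeries R) : PowerSeries R := invOfUnit (1 - f) 1

theorem mul_iv {f : PowerSeries R} (hf : Van 1 f) : (1 - f) * iv f = 1 :=
  mul_invOfUnit _ _ (by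
    rw [← coeff_zero_eq_constantCoeff_apply, map_sub, hf 0 (by omega)]; simp)

theorem iv_mul {f : PowerSeries R} (hf : Van 1 f) : iv f * (1 - f) = 1 :=
  invOfUnit_mul _ _ (by
    rw [← coeff_zero_eq_constantCoeff_apply, map_sub, hf 0 (by omega)]; simp)

theorem iv_eq {f : PowerSeries R} (hf : Van 1 f) : iv f = 1 + f * iv f := by
  have := mul_iv hf
  rw [sub_mul, one_mul] at this
  rw [← this]; abel

theorem iv_eq' {f : PowerSeries R} (hf : Van 1 f) : iv f = 1 + iv f * f := by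
  have := iv_mul hf
  rw [mul_sub, mul_one] at this
  rw [← this]; abel

theorem iv_unique {f g : PowerSeries R} (hf : Van 1 f) (h : (1 - f) * g = 1) : iv f = g := by
  calc iv f = iv f * ((1 - f) * g) := by rw [h, mul_one]
    _ = g := by rw [← mul_assoc, iv_mul hf, one_mul]

theorem iv_unique' {f g : PowerSeries R} (hf : Van 1 f) (h : g * (1 - f) = 1) : iv f = g := by
  calc iv f = (g * (1 - f)) * iv f := by rw [h, one_mul]
    _ = g := by rw [mul_assoc, mul_iv hf, mul_one]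

theorem coeff_zero_iv {f : PowerSeries R} (hf : Van 1 f) : coeff 0 (iv f) = 1 := by
  rw [iv_eq hf, map_add, (hf.mul_right (iv f)) 0 (by omega)]; simp

theorem cf_of_fix {S : Subsemiring R} {a b w : PowerSeries R} (ha : a ∈ cf S) (hb : b ∈ cf S)
    (hb0 : Van 1 b) (hw : w = a + b * w) : w ∈ cf S := by
  intro k
  induction k using Nat.strong_induction_on with
  | _ k ih =>
    rw [hw, map_add, coeff_mul]
    refine S.add_mem (ha k) (S.sum_mem fun y hy => ?_)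
    rw [Finset.HasAntidiagonal.mem_antidiagonal] at hy
    by_cases h : y.1 = 0
    · rw [h, hb0 0 (by omega), zero_mul]; exact S.zero_mem
    · exact S.mul_mem (hb _) (ih _ (by omega))

theorem iv_cf {S : Subsemiring R} {f : PowerSeries R} (hf : f ∈ cf S) (h0 : Van 1 f) : iv f ∈ cf S :=
  cf_of_fix (cf S).one_mem hf h0 (iv_eq h0)

theorem iv_cfr {S : Subring R} {f : PowerSeries R} (hf : f ∈ cfr S) (h0 : Van 1 f) : iv f ∈ cfr S :=
  iv_cf (S := S.toSubsemiring) hf h0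

/-- The unit `1 - f`. -/
noncomputable def u1 (f : PowerSeries R) (hf : Van 1 f) : (PowerSeries R)ˣ :=
  ⟨1 - f, iv f, mul_iv hf, iv_mul hf⟩

theorem u1_val (f : PowerSeries R) (hf : Van 1 f) : (u1 f hf : PowerSeries R) = 1 - f := rfl

theorem u1_inv (f : PowerSeries R) (hf : Van 1 f) :
    (((u1 f hf)⁻¹ : (PowerSeries R)ˣ) : PowerSeries R) = iv f := rfl

/-- The unit `1 + c` for `c` of square zero. -/
def usq {S : Type} [Ring S] (c : S) (hc : c * c = 0) : Sˣ :=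
  ⟨1 + c, 1 - c, by rw [add_mul, mul_sub, mul_sub, hc]; simp, by rw [sub_mul, mul_add, mul_add, hc]; simp⟩

theorem usq_val {S : Type} [Ring S] (c : S) (hc : c * c = 0) : (usq c hc : S) = 1 + c := rfl

theorem usq_inv {S : Type} [Ring S] (c : S) (hc : c * c = 0) : (((usq c hc)⁻¹ : Sˣ) : S) = 1 - c := rfl

theorem iv_X_mul_C (a : R) : iv (X * C a : PowerSeries R) = PowerSeries.mk fun k => a ^ k := by
  refine iv_unique (van_X.mul_right _) ?_
  ext k
  rw [sub_mul, one_mul, map_sub, mul_assoc]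
  rcases k with _ | k
  · simp
  · rw [coeff_succ_X_mul, coeff_C_mul, coeff_mk, coeff_mk, coeff_one, if_neg (by omega), pow_succ']
    simp

end Van

section Bd

variable {𝔸 : Type} [NormedRing 𝔸] [NormedAlgebra ℝ 𝔸]

theorem Bd.nonneg {ρ : ℝ} {f : PowerSeries 𝔸} {c : ℝ} (h : Bd ρ f c) : 0 ≤ c := by simpa using h 0

theorem Bd.le {ρ : ℝ} {f : PowerSeries 𝔸} {c c' : ℝ} (h : Bd ρ f c) (hc : c ≤ c') : Bd ρ f c' :=
  fun K => (h K).trans hc

theorem Bd.of_le {ρ : ℝ} (hρ : 0 ≤ ρ) {f g : PowerSeries 𝔸} {c : ℝ} (h : Bd ρ f c)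
    (hg : ∀ k, ‖coeff k g‖ ≤ ‖coeff k f‖) : Bd ρ g c := fun K =>
  le_trans (Finset.sum_le_sum fun k _ => mul_le_mul_of_nonneg_right (hg k) (by positivity)) (h K)

theorem Bd.mono {ρ ρ' : ℝ} {f : PowerSeries 𝔸} {c : ℝ} (h : Bd ρ f c) (h0 : 0 ≤ ρ') (h1 : ρ' ≤ ρ) :
    Bd ρ' f c := by
  intro K
  refine le_trans ?_ (h K)
  apply Finset.sum_le_sum
  intro k _
  exact mul_le_mul_of_nonneg_left (pow_le_pow_left₀ h0 h1 k) (norm_nonneg _)

theorem Bd.add {ρ : ℝ} (hρ : 0 ≤ ρ) {f g : PowerSeries 𝔸} {c d : ℝ} (hf : Bd ρ f c) (hg : Bd ρ g d) :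
    Bd ρ (f + g) (c + d) := by
  intro K
  calc ∑ k ∈ range K, ‖coeff k (f + g)‖ * ρ ^ k
      ≤ ∑ k ∈ range K, (‖coeff k f‖ * ρ ^ k + ‖coeff k g‖ * ρ ^ k) := by
        apply Finset.sum_le_sum
        intro k _
        rw [map_add, ← add_mul]
        exact mul_le_mul_of_nonneg_right (norm_add_le _ _) (by positivity)
    _ ≤ c + d := by rw [Finset.sum_add_distrib]; exact add_le_add (hf K) (hg K)

theorem Bd.neg {ρ : ℝ} {f : PowerSeries 𝔸} {c : ℝ} (hf : Bd ρ f c) : Bd ρ (-f) c := by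
  intro K
  refine le_trans (le_of_eq ?_) (hf K)
  apply Finset.sum_congr rfl
  intro k _
  rw [map_neg, norm_neg]

theorem Bd.sub {ρ : ℝ} (hρ : 0 ≤ ρ) {f g : PowerSeries 𝔸} {c d : ℝ} (hf : Bd ρ f c) (hg : Bd ρ g d) :
    Bd ρ (f - g) (c + d) := by
  rw [sub_eq_add_neg]
  exact hf.add hρ hg.neg

theorem Bd.of_conv {ρ : ℝ} (hρ : 0 ≤ ρ) {f g h : PowerSeries 𝔸} {c d : ℝ} (hf : Bd ρ f c) (hg : Bd ρ g d)
    (hh : ∀ k, ‖coeff k h‖ ≤ ∑ y ∈ antidiagonal k, ‖coeff y.1 f‖ * ‖coeff y.2 g‖) :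
    Bd ρ h (c * d) := by
  intro K
  calc ∑ k ∈ range K, ‖coeff k h‖ * ρ ^ k
      ≤ ∑ k ∈ range K, ∑ y ∈ antidiagonal k, (‖coeff y.1 f‖ * ρ ^ y.1) * (‖coeff y.2 g‖ * ρ ^ y.2) := by
        apply Finset.sum_le_sum
        intro k _
        refine (mul_le_mul_of_nonneg_right (hh k) (by positivity)).trans (le_of_eq ?_)
        rw [Finset.sum_mul]
        apply Finset.sum_congr rfl
        intro y hy
        rw [Finset.HasAntidiagonal.mem_antidiagonal] at hy
        rw [← hy, pow_add]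
        ring
    _ ≤ (∑ i ∈ range K, ‖coeff i f‖ * ρ ^ i) * ∑ j ∈ range K, ‖coeff j g‖ * ρ ^ j :=
        sum_conv_le (fun i => ‖coeff i f‖ * ρ ^ i) (fun j => ‖coeff j g‖ * ρ ^ j)
          (fun i => by positivity) (fun j => by positivity) K
    _ ≤ c * d := mul_le_mul (hf K) (hg K) (Finset.sum_nonneg fun j _ => by positivity) hf.nonneg

theorem norm_coeff_mul_le (f g : PowerSeries 𝔸) (k : ℕ) :
    ‖coeff k (f * g)‖ ≤ ∑ y ∈ antidiagonal k, ‖coeff y.1 f‖ * ‖coeff y.2 g‖ := by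
  rw [coeff_mul]
  exact (norm_sum_le _ _).trans (Finset.sum_le_sum fun y _ => norm_mul_le _ _)

theorem Bd.mul {ρ : ℝ} (hρ : 0 ≤ ρ) {f g : PowerSeries 𝔸} {c d : ℝ} (hf : Bd ρ f c) (hg : Bd ρ g d) :
    Bd ρ (f * g) (c * d) := hf.of_conv hρ hg (norm_coeff_mul_le f g)

theorem Bd.zero {ρ : ℝ} : Bd ρ (0 : PowerSeries 𝔸) 0 := by
  intro K; simp

theorem Bd.X_pow_mul_C {ρ : ℝ} (hρ : 0 ≤ ρ) (a : 𝔸) (n : ℕ) :
    Bd ρ (X ^ n * C a : PowerSeries 𝔸) (‖a‖ * ρ ^ n) := by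
  intro K
  have h1 : ∀ k ∈ range K, ‖coeff k (X ^ n * C a : PowerSeries 𝔸)‖ * ρ ^ k =
      if k = n then ‖a‖ * ρ ^ n else 0 := by
    intro k _
    rw [coeff_mul_C, coeff_X_pow]
    split_ifs with h
    · rw [h, one_mul]
    · simp
  rw [Finset.sum_congr rfl h1, Finset.sum_ite_eq']
  split_ifs
  · exact le_rfl
  · positivity

theorem Bd.C {ρ : ℝ} (hρ : 0 ≤ ρ) (a : 𝔸) : Bd ρ (C a : PowerSeries 𝔸) ‖a‖ := by
  have := Bd.X_pow_mul_C hρ a 0
  simpa using this

theorem Bd.one {ρ : ℝ} (hρ : 0 ≤ ρ) : Bd ρ (1 : PowerSeries 𝔸) ‖(1 : 𝔸)‖ := by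
  have := Bd.C hρ (1 : 𝔸)
  simpa using this

theorem Bd.coeff {ρ : ℝ} (hρ : 0 ≤ ρ) {f : PowerSeries 𝔸} {c : ℝ} (hf : Bd ρ f c) (k : ℕ) :
    ‖coeff k f‖ * ρ ^ k ≤ c := by
  refine le_trans ?_ (hf (k + 1))
  exact Finset.single_le_sum (f := fun i => ‖PowerSeries.coeff i f‖ * ρ ^ i) (fun j _ => by positivity)
    (Finset.self_mem_range_succ k)

theorem Bd.sum {ρ : ℝ} (hρ : 0 ≤ ρ) {κ : Type*} (s : Finset κ) (f : κ → PowerSeries 𝔸) (c : κ → ℝ)
    (h : ∀ i ∈ s, Bd ρ (f i) (c i)) : Bd ρ (∑ i ∈ s, f i) (∑ i ∈ s, c i) := by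
  classical
  induction s using Finset.induction_on with
  | empty => simpa using Bd.zero
  | insert a s ha ih =>
    rw [Finset.sum_insert ha, Finset.sum_insert ha]
    exact (h a (Finset.mem_insert_self a s)).add hρ (ih fun i hi => h i (Finset.mem_insert_of_mem hi))

theorem Bd.fix {ρ : ℝ} (hρ : 0 ≤ ρ) {a b w : PowerSeries 𝔸} {α β : ℝ} (ha : Bd ρ a α) (hb : Bd ρ b β)
    (hβ : β < 1) (hw : w = a + b * w) : Bd ρ w (α / (1 - β)) := by
  have h1c : 0 < 1 - β := by linarith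
  intro K
  rw [le_div_iff₀ h1c]
  set s := ∑ k ∈ range K, ‖PowerSeries.coeff k w‖ * ρ ^ k with hs
  have h1 : s ≤ ∑ k ∈ range K, ‖PowerSeries.coeff k a‖ * ρ ^ k +
      ∑ k ∈ range K, ∑ y ∈ antidiagonal k,
        (‖PowerSeries.coeff y.1 b‖ * ρ ^ y.1) * (‖PowerSeries.coeff y.2 w‖ * ρ ^ y.2) := by
    rw [← Finset.sum_add_distrib, hs]
    apply Finset.sum_le_sum
    intro k _
    have h2 : ‖PowerSeries.coeff k w‖ ≤ ‖PowerSeries.coeff k a‖ +
        ∑ y ∈ antidiagonal k, ‖PowerSeries.coeff y.1 b‖ * ‖PowerSeries.coeff y.2 w‖ := by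
      conv_lhs => rw [hw]
      rw [map_add]
      exact (norm_add_le _ _).trans (add_le_add le_rfl (norm_coeff_mul_le _ _ _))
    refine (mul_le_mul_of_nonneg_right h2 (by positivity)).trans (le_of_eq ?_)
    rw [add_mul]
    congr 1
    rw [Finset.sum_mul]
    apply Finset.sum_congr rfl
    intro y hy
    rw [Finset.HasAntidiagonal.mem_antidiagonal] at hy
    rw [← hy, pow_add]
    ring
  have h2 := sum_conv_le (fun i => ‖PowerSeries.coeff i b‖ * ρ ^ i) (fun j => ‖PowerSeries.coeff j w‖ * ρ ^ j)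
          (fun i => by positivity) (fun j => by positivity) K
  have h3 : (∑ i ∈ range K, ‖PowerSeries.coeff i b‖ * ρ ^ i) * s ≤ β * s :=
    mul_le_mul_of_nonneg_right (hb K) (Finset.sum_nonneg fun j _ => by positivity)
  have h4 := ha K
  nlinarith

theorem Bd.summable {ρ : ℝ} (hρ : 0 ≤ ρ) {f : PowerSeries 𝔸} {c : ℝ} (hf : Bd ρ f c) :
    Summable fun k => ‖PowerSeries.coeff k f‖ * ρ ^ k :=
  summable_of_sum_range_le (fun k => by positivity) hf

theorem bd_of_summable {ρ : ℝ} (hρ : 0 ≤ ρ) {f : PowerSeries 𝔸}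
    (hf : Summable fun k => ‖PowerSeries.coeff k f‖ * ρ ^ k) : ∃ c, Bd ρ f c :=
  ⟨_, fun K => hf.sum_le_tsum _ (fun k _ => by positivity)⟩

theorem Bd.tail {ρ : ℝ} (hρ : 0 ≤ ρ) {f : PowerSeries 𝔸} {c : ℝ} (hf : Bd ρ f c) (ε : ℝ) (hε : 0 < ε) :
    ∃ K0, ∀ K, K0 ≤ K → Bd ρ (f - trn K f) ε := by
  have h1 := hf.summable hρ
  have h2 := tendsto_sum_nat_add (fun k => ‖PowerSeries.coeff k f‖ * ρ ^ k)
  have h3 := h2.eventually (gt_mem_nhds hε)
  obtain ⟨K0, hK0⟩ := eventually_atTop.mp h3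
  refine ⟨K0, fun K hK K' => ?_⟩
  refine le_trans ?_ (hK0 K hK).le
  have h4 : ∑ k ∈ range K', ‖PowerSeries.coeff k (f - trn K f)‖ * ρ ^ k ≤
      ∑ k ∈ range (K + K'), ‖PowerSeries.coeff k (f - trn K f)‖ * ρ ^ k :=
    Finset.sum_le_sum_of_subset_of_nonneg (Finset.range_mono (by omega)) fun k _ _ => by positivity
  refine h4.trans ?_
  rw [Finset.sum_range_add, Finset.sum_eq_zero, zero_add]
  · refine le_trans (le_of_eq ?_) (((summable_nat_add_iff K).mpr h1).sum_le_tsum (range K')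
      (fun k _ => by positivity))
    refine Finset.sum_congr rfl fun k _ => ?_
    rw [coeff_sub_trn, if_neg (by omega), add_comm]
  · intro k hk
    rw [coeff_sub_trn, if_pos (Finset.mem_range.mp hk)]
    simp

theorem bd_of_finS {ρ : ℝ} (hρ : 0 ≤ ρ) {f : PowerSeries 𝔸} (hf : FinS f) : ∃ c, Bd ρ f c := by
  obtain ⟨N, hN⟩ := hf
  refine bd_of_summable hρ (summable_of_ne_finset_zero (s := range N) fun k hk => ?_)
  rw [hN k (by simpa using hk)]
  simp

theorem bd_of_coeff_le {ρ : ℝ} (hρ : 0 ≤ ρ) (hρ1 : ρ < 1) {f : PowerSeries 𝔸} {c : ℝ} {K : ℕ}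
    (hK : Van K f) (hf : ∀ k, ‖PowerSeries.coeff k f‖ ≤ c) : Bd ρ f (c * ρ ^ K / (1 - ρ)) := by
  intro K'
  have hc : 0 ≤ c := (norm_nonneg _).trans (hf 0)
  have h4 : ∑ k ∈ range K', ‖PowerSeries.coeff k f‖ * ρ ^ k ≤
      ∑ k ∈ range (K + K'), ‖PowerSeries.coeff k f‖ * ρ ^ k :=
    Finset.sum_le_sum_of_subset_of_nonneg (Finset.range_mono (by omega)) fun k _ _ => by positivity
  refine h4.trans ?_
  rw [Finset.sum_range_add, Finset.sum_eq_zero, zero_add]
  · have h5 : ∑ k ∈ range K', ρ ^ k ≤ 1 / (1 - ρ) := by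
      rw [one_div, ← tsum_geometric_of_lt_one hρ hρ1]
      exact (summable_geometric_of_lt_one hρ hρ1).sum_le_tsum _ fun k _ => by positivity
    calc ∑ k ∈ range K', ‖PowerSeries.coeff (K + k) f‖ * ρ ^ (K + k)
        ≤ ∑ k ∈ range K', c * ρ ^ K * ρ ^ k := by
          refine Finset.sum_le_sum fun k _ => ?_
          rw [pow_add, mul_assoc]
          exact mul_le_mul_of_nonneg_right (hf _) (by positivity)
      _ = c * ρ ^ K * ∑ k ∈ range K', ρ ^ k := by rw [Finset.mul_sum]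
      _ ≤ c * ρ ^ K * (1 / (1 - ρ)) := mul_le_mul_of_nonneg_left h5 (by positivity)
      _ = _ := by ring
  · intro k hk
    rw [hK k (Finset.mem_range.mp hk)]
    simp

/-- The series of finite weighted norm form a subring. -/
def BB (𝔸 : Type) [NormedRing 𝔸] [NormedAlgebra ℝ 𝔸] (ρ : ℝ) (hρ : 0 ≤ ρ) : Subring (PowerSeries 𝔸) where
  carrier := {f | ∃ c, Bd ρ f c}
  mul_mem' := by
    rintro f g ⟨c, hc⟩ ⟨d, hd⟩
    exact ⟨c * d, hc.mul hρ hd⟩
  one_mem' := ⟨_, Bd.one hρ⟩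
  add_mem' := by
    rintro f g ⟨c, hc⟩ ⟨d, hd⟩
    exact ⟨c + d, hc.add hρ hd⟩
  zero_mem' := ⟨0, Bd.zero⟩
  neg_mem' := by
    rintro f ⟨c, hc⟩
    exact ⟨c, hc.neg⟩

theorem mem_BB {ρ : ℝ} {hρ : 0 ≤ ρ} {f : PowerSeries 𝔸} : f ∈ BB 𝔸 ρ hρ ↔ ∃ c, Bd ρ f c := Iff.rfl

theorem finS_le_BB {ρ : ℝ} (hρ : 0 ≤ ρ) : finS 𝔸 ≤ BB 𝔸 ρ hρ := fun _ hf => bd_of_finS hρ hf

theorem BB_C {ρ : ℝ} (hρ : 0 ≤ ρ) (a : 𝔸) : (C a : PowerSeries 𝔸) ∈ BB 𝔸 ρ hρ := ⟨_, Bd.C hρ a⟩

theorem BB_X {ρ : ℝ} (hρ : 0 ≤ ρ) : (X : PowerSeries 𝔸) ∈ BB 𝔸 ρ hρ := finS_le_BB hρ finS_X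

theorem coeff_Dt (f : PowerSeries 𝔸) (k : ℕ) : coeff k (Dt f) = (k : ℝ) • coeff k f := by simp [Dt]

theorem Dt_add (f g : PowerSeries 𝔸) : Dt (f + g) = Dt f + Dt g := by
  ext k; simp [coeff_Dt]

theorem Dt_neg (f : PowerSeries 𝔸) : Dt (-f) = -Dt f := by
  ext k; simp [coeff_Dt]

theorem Dt_sub (f g : PowerSeries 𝔸) : Dt (f - g) = Dt f - Dt g := by
  ext k; simp [coeff_Dt, smul_sub]

theorem Dt_C (a : 𝔸) : Dt (C a) = 0 := by
  ext k
  rw [coeff_Dt, coeff_C]
  split_ifs with h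
  · simp [h]
  · simp

theorem Dt_one : Dt (1 : PowerSeries 𝔸) = 0 := by simpa using Dt_C (1 : 𝔸)

theorem Dt_mul (f g : PowerSeries 𝔸) : Dt (f * g) = Dt f * g + f * Dt g := by
  ext k
  rw [coeff_Dt, map_add, coeff_mul, coeff_mul, coeff_mul, Finset.smul_sum, ← Finset.sum_add_distrib]
  refine Finset.sum_congr rfl fun y hy => ?_
  rw [Finset.HasAntidiagonal.mem_antidiagonal] at hy
  rw [coeff_Dt, coeff_Dt, smul_mul_assoc, mul_smul_comm, ← add_smul, ← hy]
  push_cast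
  rfl

theorem Dt_X_mul_C (a : 𝔸) : Dt (X * C a) = X * C a := by
  ext k
  rw [coeff_Dt, coeff_mul_C, coeff_X]
  split_ifs with h
  · simp [h]
  · simp

variable (P : 𝔸 →ₗ[ℝ] 𝔸)

theorem P_coeff_comm (hP : ∀ x y, P (x * y) = P (y * x)) (f g : PowerSeries 𝔸) (k : ℕ) :
    P (coeff k (f * g)) = P (coeff k (g * f)) := by
  rw [coeff_mul, coeff_mul, map_sum, map_sum, ← Finset.Nat.sum_antidiagonal_swap]
  exact Finset.sum_congr rfl fun y _ => hP _ _

theorem tau_one (k : ℕ) : tau P 1 k = 0 := by simp [tau, Dt_one]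

theorem tau_mul (hP : ∀ x y, P (x * y) = P (y * x)) (u v : (PowerSeries 𝔸)ˣ) (k : ℕ) :
    tau P (u * v) k = tau P u k + tau P v k := by
  unfold tau
  rw [mul_inv_rev, Units.val_mul, Units.val_mul, Dt_mul, add_mul, map_add, map_add]
  congr 1
  · rw [mul_assoc, ← mul_assoc (v : PowerSeries 𝔸), Units.mul_inv, one_mul]
  · rw [mul_assoc, P_coeff_comm P hP, mul_assoc, mul_assoc, Units.inv_mul, mul_one]

theorem tau_inv (hP : ∀ x y, P (x * y) = P (y * x)) (u : (PowerSeries 𝔸)ˣ) (k : ℕ) :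
    tau P u⁻¹ k = -tau P u k := by
  have := tau_mul P hP u u⁻¹ k
  rw [mul_inv_cancel, tau_one] at this
  exact eq_neg_of_add_eq_zero_right this.symm

theorem tau_congr {u v : (PowerSeries 𝔸)ˣ} (h : (u : PowerSeries 𝔸) = v) (k : ℕ) :
    tau P u k = tau P v k := by rw [Units.ext h]

theorem tau_u1_X_mul_C (a : 𝔸) (h : Van 1 (X * C a : PowerSeries 𝔸)) (k : ℕ) :
    tau P (u1 (X * C a) h) k = if k = 0 then 0 else -P (a ^ k) := by
  unfold tau
  rw [u1_val, u1_inv, iv_X_mul_C, Dt_sub, Dt_one, Dt_X_mul_C, zero_sub, neg_mul, map_neg, map_neg, mul_assoc]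
  rcases k with _ | k
  · simp
  · rw [coeff_succ_X_mul, coeff_C_mul, coeff_mk, if_neg (by omega), pow_succ']

theorem tau_col (hP : ∀ x y, P (x * y) = P (y * x)) (e : 𝔸) (c : PowerSeries 𝔸) (h1 : c * C e = c)
    (h2 : C e * c = 0) (hc : c * c = 0) (k : ℕ) : tau P (usq c hc) k = 0 := by
  unfold tau
  have h3 : Dt c * C e = Dt c := by
    conv_rhs => rw [← h1, Dt_mul, Dt_C, mul_zero, add_zero]
  have h4 : C e * Dt c = 0 := by
    have := congrArg Dt h2
    rw [Dt_mul, Dt_C, zero_mul, zero_add] at this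
    rw [this]; ext k; simp [coeff_Dt]
  have h5 : Dt c * c = 0 := by rw [← h3, mul_assoc, h2, mul_zero]
  rw [usq_val, usq_inv, Dt_add, Dt_one, zero_add, mul_sub, h5, sub_zero, mul_one, ← h3,
    P_coeff_comm P hP, h4]
  simp

theorem tau_row (hP : ∀ x y, P (x * y) = P (y * x)) (e : 𝔸) (c : PowerSeries 𝔸) (h1 : C e * c = c)
    (h2 : c * C e = 0) (hc : c * c = 0) (k : ℕ) : tau P (usq c hc) k = 0 := by
  unfold tau
  have h3 : C e * Dt c = Dt c := by
    conv_rhs => rw [← h1, Dt_mul, Dt_C, zero_mul, zero_add]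
  have h4 : Dt c * C e = 0 := by
    have := congrArg Dt h2
    rw [Dt_mul, Dt_C, mul_zero, add_zero] at this
    rw [this]; ext k; simp [coeff_Dt]
  have h5 : Dt c * c = 0 := by rw [← h1, ← mul_assoc, h1, h4, zero_mul]
  rw [usq_val, usq_inv, Dt_add, Dt_one, zero_add, mul_sub, h5, sub_zero, mul_one, ← h3,
    P_coeff_comm P hP, h4]
  simp

end Bd

end Pool.Agent.H123Z.GSC
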