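import Mathlib

set_option autoImplicit false
set_option linter.all false

namespace Pool.Agent.H123Z.GSC

open Finset

/-- Square matrices over the real group ring. -/
abbrev MA (ι G : Type) : Type := Matrix ι ι (MonoidAlgebra ℝ G)

/-- Square matrices over the integral group ring. -/
abbrev MZ (ι G : Type) : Type := Matrix ι ι (MonoidAlgebra ℤ G)

section Concrete

variable {ι G : Type} [Fintype ι] [DecidableEq ι] [Group G] [Fintype G]

/-- The sum of absolute values of the coefficients of an element of the real group ring. -/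
noncomputable def nug (x : MonoidAlgebra ℝ G) : ℝ := ∑ g, |x.coeff g|

theorem nug_nonneg (x : MonoidAlgebra ℝ G) : 0 ≤ nug x :=
  Finset.sum_nonneg fun _ _ => abs_nonneg _

theorem nug_add (x y : MonoidAlgebra ℝ G) : nug (x + y) ≤ nug x + nug y := by
  unfold nug
  rw [← Finset.sum_add_distrib]
  exact Finset.sum_le_sum fun g _ => by simpa using abs_add_le (x.coeff g) (y.coeff g)

theorem nug_zero : nug (0 : MonoidAlgebra ℝ G) = 0 := by simp [nug]

theorem nug_neg (x : MonoidAlgebra ℝ G) : nug (-x) = nug x := by simp [nug]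

theorem nug_smul (r : ℝ) (x : MonoidAlgebra ℝ G) : nug (r • x) = |r| * nug x := by
  simp [nug, abs_mul, Finset.mul_sum]

theorem nug_sum {κ : Type*} (s : Finset κ) (f : κ → MonoidAlgebra ℝ G) :
    nug (∑ i ∈ s, f i) ≤ ∑ i ∈ s, nug (f i) := by
  classical
  induction s using Finset.induction_on with
  | empty => simp [nug_zero]
  | insert a s ha ih =>
    rw [Finset.sum_insert ha, Finset.sum_insert ha]
    exact (nug_add _ _).trans (by linarith)

theorem coeff_mul_sum {k : Type} [CommRing k] (x y : MonoidAlgebra k G) (g : G) :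
    (x * y).coeff g = ∑ h, x.coeff h * y.coeff (h⁻¹ * g) := by
  rw [MonoidAlgebra.coeff_mul_apply_left, Finsupp.sum_fintype _ _ (by simp)]

theorem nug_mul (x y : MonoidAlgebra ℝ G) : nug (x * y) ≤ nug x * nug y := by
  unfold nug
  calc ∑ g, |(x * y).coeff g| ≤ ∑ g, ∑ h, |x.coeff h| * |y.coeff (h⁻¹ * g)| := by
        refine Finset.sum_le_sum fun g _ => ?_
        rw [coeff_mul_sum]
        refine (Finset.abs_sum_le_sum_abs _ _).trans (le_of_eq ?_)
        simp [abs_mul]
    _ = ∑ h, |x.coeff h| * ∑ g, |y.coeff g| := by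
        rw [Finset.sum_comm]
        refine Finset.sum_congr rfl fun h _ => ?_
        rw [← Finset.mul_sum]
        congr 1
        exact Fintype.sum_equiv (Equiv.mulLeft h⁻¹) _ _ (fun g => rfl)
    _ = _ := by rw [Finset.sum_mul]

theorem nug_eq_zero {x : MonoidAlgebra ℝ G} (h : nug x = 0) : x = 0 := by
  unfold nug at h
  rw [Finset.sum_eq_zero_iff_of_nonneg (fun _ _ => abs_nonneg _)] at h
  ext g
  simpa using h g (Finset.mem_univ g)

/-- The sum of absolute values of all coordinates of a matrix over the real group ring. -/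
noncomputable def nu (X : MA ι G) : ℝ := ∑ i, ∑ j, nug (X i j)

noncomputable def nuR (ι G : Type) [Fintype ι] [DecidableEq ι] [Group G] [Fintype G] :
    RingNorm (MA ι G) where
  toFun := nu
  map_zero' := by simp [nu, nug_zero]
  add_le' := by
    intro X Y
    unfold nu
    rw [← Finset.sum_add_distrib]
    refine Finset.sum_le_sum fun i _ => ?_
    rw [← Finset.sum_add_distrib]
    exact Finset.sum_le_sum fun j _ => nug_add _ _
  neg' := by intro X; simp [nu, nug_neg]
  mul_le' := by
    intro X Y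
    unfold nu
    calc ∑ i, ∑ j, nug ((X * Y) i j) ≤ ∑ i, ∑ j, ∑ l, nug (X i l) * nug (Y l j) := by
          refine Finset.sum_le_sum fun i _ => Finset.sum_le_sum fun j _ => ?_
          rw [Matrix.mul_apply]
          exact (nug_sum _ _).trans (Finset.sum_le_sum fun l _ => nug_mul _ _)
      _ = ∑ i, ∑ l, nug (X i l) * ∑ j, nug (Y l j) := by
          refine Finset.sum_congr rfl fun i _ => ?_
          rw [Finset.sum_comm]
          exact Finset.sum_congr rfl fun l _ => by rw [Finset.mul_sum]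
      _ ≤ ∑ i, ∑ l, nug (X i l) * ∑ l', ∑ j, nug (Y l' j) := by
          refine Finset.sum_le_sum fun i _ => Finset.sum_le_sum fun l _ => ?_
          refine mul_le_mul_of_nonneg_left ?_ (nug_nonneg _)
          exact Finset.single_le_sum (f := fun l' => ∑ j, nug (Y l' j))
            (fun l' _ => Finset.sum_nonneg fun j _ => nug_nonneg _) (Finset.mem_univ l)
      _ = _ := by rw [Finset.sum_mul]; exact Finset.sum_congr rfl fun i _ => by rw [Finset.sum_mul]
  eq_zero_of_map_eq_zero' := by
    intro X h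
    unfold nu at h
    rw [Finset.sum_eq_zero_iff_of_nonneg (fun _ _ => Finset.sum_nonneg fun _ _ => nug_nonneg _)] at h
    ext1 i j
    have := h i (Finset.mem_univ i)
    rw [Finset.sum_eq_zero_iff_of_nonneg (fun _ _ => nug_nonneg _)] at this
    exact nug_eq_zero (this j (Finset.mem_univ j))

noncomputable instance instNormedRingMA : NormedRing (MA ι G) := (nuR ι G).toNormedRing

theorem norm_def (X : MA ι G) : ‖X‖ = ∑ i, ∑ j, nug (X i j) := rfl

theorem norm_def' (X : MA ι G) : ‖X‖ = ∑ i, ∑ j, ∑ g, |(X i j).coeff g| := rfl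

noncomputable instance instNormedAlgebraMA : NormedAlgebra ℝ (MA ι G) where
  norm_smul_le r X := by
    simp [norm_def, nug_smul, Finset.mul_sum]

/-- The inclusion of integral into real group ring matrices. -/
noncomputable def toR : MZ ι G →+* MA ι G := (MonoidAlgebra.mapRingHom G (Int.castRingHom ℝ)).mapMatrix

theorem toR_coeff (X : MZ ι G) (i j : ι) (g : G) : ((toR X) i j).coeff g = ((X i j).coeff g : ℝ) := by
  simp [toR]

/-- The real augmentation of an integral group ring matrix. -/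
noncomputable def aug (X : MZ ι G) : Matrix ι ι ℝ := fun i j => ∑ g, ((X i j).coeff g : ℝ)

/-- The averaging idempotent of the real group ring. -/
noncomputable def ebar (G : Type) [Group G] [Fintype G] : MonoidAlgebra ℝ G :=
  ∑ g, MonoidAlgebra.single g ((Fintype.card G : ℝ)⁻¹)

/-- The rank one matrix supported on column `o` built from a real vector. -/
noncomputable def colV (G : Type) [Group G] [Fintype G] (o : ι) (lam : ℝ) (v : ι → ℝ) : MA ι G :=
  fun i j => if j = o then (lam * v i) • ebar G else 0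

/-- A matrix with row and column `o` replaced by zero. -/
def cut {R : Type} [Zero R] (o : ι) (X : Matrix ι ι R) : Matrix ι ι R :=
  fun i j => if i = o ∨ j = o then 0 else X i j

/-- A chosen representative of the conjugacy class. -/
noncomputable def rep (g : G) : G := (ConjClasses.mk g).out

/-- The linear map sending each group element to the chosen representative of its class. -/
noncomputable def kap (G : Type) [Group G] [Fintype G] :
    MonoidAlgebra ℝ G →ₗ[ℝ] MonoidAlgebra ℝ G where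
  toFun x := ∑ g, MonoidAlgebra.single (rep g) (x.coeff g)
  map_add' x y := by simp [Finset.sum_add_distrib, MonoidAlgebra.single_add]
  map_smul' r x := by simp [Finset.smul_sum]

/-- The class trace, placed in the corner `(o, o)`. -/
noncomputable def ctr (G : Type) [Group G] [Fintype G] (o : ι) : MA ι G →ₗ[ℝ] MA ι G where
  toFun X := Matrix.single o o (kap G (Matrix.trace X))
  map_add' X Y := by simp [Matrix.single_add]
  map_smul' r X := by simp [Matrix.smul_single]

/-- Equal traces of powers give equal reversed characteristic polynomials over the reals. -/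
def JacobiR : Prop :=
  ∀ (α β : Type) [Fintype α] [DecidableEq α] [Fintype β] [DecidableEq β]
    (M : Matrix α α ℝ) (N : Matrix β β ℝ),
    (∀ k, 0 < k → Matrix.trace (M ^ k) = Matrix.trace (N ^ k)) → M.charpolyRev = N.charpolyRev

/-- The companion matrix of the block matrix with rows `(Z, Y)` and `(Z, Q + Y)`. -/
noncomputable def comp2 {R : Type} [Ring R] (L : ℕ) (Z Y Q : Polynomial R) :
    Matrix (Bool × Fin L) (Bool × Fin L) R :=
  fun a b => (if a.1 = b.1 ∧ (b.2 : ℕ) = (a.2 : ℕ) + 1 then 1 else 0) +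
    (if (b.2 : ℕ) = 0 then
      (if b.1 = true then (if a.1 = true then Q + Y else Y) else Z).coeff ((a.2 : ℕ) + 1) else 0)

/-- Shift equivalence of a ring element with the companion matrix. -/
def SEComp : Prop :=
  ∀ (R : Type) [Ring R] (b : R) (E E' H H' Z Y Q : Polynomial R) (L : ℕ), 0 < L →
    E * E' = 1 → E' * E = 1 → H * H' = 1 → H' * H = 1 →
    E * (1 - Polynomial.X * Polynomial.C b) * H = (1 - Z) * (1 - Q) - Y →
    Z.coeff 0 = 0 → Y.coeff 0 = 0 → Q.coeff 0 = 0 →
    (∀ k, L < k → Z.coeff k = 0 ∧ Y.coeff k = 0 ∧ Q.coeff k = 0) →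
    ∃ (l : ℕ) (r s : Bool × Fin L → R), 0 < l ∧
      (∀ a, b * r a = ∑ a', r a' * comp2 L Z Y Q a' a) ∧
      (∀ a, s a * b = ∑ a', comp2 L Z Y Q a a' * s a') ∧
      ∑ a, r a * s a = b ^ l ∧ ∀ a a', s a * r a' = (comp2 L Z Y Q ^ l) a a'

end Concrete

section Abstract

open PowerSeries

variable {𝔸 : Type} [NormedRing 𝔸] [NormedAlgebra ℝ 𝔸]

/-- The weighted sum of norms of coefficients is at most `c`. -/
def Bd (ρ : ℝ) (f : PowerSeries 𝔸) (c : ℝ) : Prop := ∀ K, ∑ k ∈ range K, ‖coeff k f‖ * ρ ^ k ≤ c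

/-- The coefficients below `K` vanish. -/
def Van {R : Type} [Semiring R] (K : ℕ) (f : PowerSeries R) : Prop := ∀ k, k < K → coeff k f = 0

/-- Finitely many nonzero coefficients. -/
def FinS {R : Type} [Semiring R] (f : PowerSeries R) : Prop := ∃ N, ∀ k, N ≤ k → coeff k f = 0

/-- The Euler operator. -/
noncomputable def Dt (f : PowerSeries 𝔸) : PowerSeries 𝔸 := PowerSeries.mk fun k => (k : ℝ) • coeff k f

/-- The logarithmic derivative, seen through a linear map `P`. -/
noncomputable def tau (P : 𝔸 →ₗ[ℝ] 𝔸) (u : (PowerSeries 𝔸)ˣ) (k : ℕ) : 𝔸 :=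
  P (coeff k (Dt (u : PowerSeries 𝔸) * ((u⁻¹ : (PowerSeries 𝔸)ˣ) : PowerSeries 𝔸)))

/-- Units with finitely supported `Z`-valued value and inverse and vanishing `tau`. -/
def Gam (Z : Subring 𝔸) (P : 𝔸 →ₗ[ℝ] 𝔸) (E : (PowerSeries 𝔸)ˣ) : Prop :=
  (∀ k, coeff k (E : PowerSeries 𝔸) ∈ Z) ∧ FinS (E : PowerSeries 𝔸) ∧
    (∀ k, coeff k ((E⁻¹ : (PowerSeries 𝔸)ˣ) : PowerSeries 𝔸) ∈ Z) ∧
    FinS ((E⁻¹ : (PowerSeries 𝔸)ˣ) : PowerSeries 𝔸) ∧ ∀ k, tau P E k = 0

/-- Second order approximation of integral combinations of the `m i` by elements of `Gam`. -/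
def Appr (Z : Subring 𝔸) (P : 𝔸 →ₗ[ℝ] 𝔸) {I : Type} [Fintype I] (m : I → 𝔸) : Prop :=
  ∀ ρ : ℝ, 0 ≤ ρ → ∃ C : ℝ, 0 ≤ C ∧ ∀ (K : ℕ) (η : ℝ) (s : I → ℕ → ℤ), 1 ≤ K → 0 ≤ η → η ≤ 1 →
    (∀ i k, k < K → s i k = 0) → (∃ N, ∀ i k, N ≤ k → s i k = 0) →
    (∀ i K', ∑ k ∈ range K', |(s i k : ℝ)| * ρ ^ k ≤ η) →
    ∃ E : (PowerSeries 𝔸)ˣ, Gam Z P E ∧
      Van (K + 1) ((E : PowerSeries 𝔸) - 1 - PowerSeries.mk fun k => ∑ i, (s i k : ℝ) • m i) ∧
      Bd ρ ((E : PowerSeries 𝔸) - 1 - PowerSeries.mk fun k => ∑ i, (s i k : ℝ) • m i) (C * η ^ 2) ∧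
      Bd ρ (PowerSeries.mk fun k => ∑ i, (s i k : ℝ) • m i) (C * η)

end Abstract

end Pool.Agent.H123Z.GSC
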