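import Pool.Agent.H123Z.GSC.Basic

set_option autoImplicit false
set_option linter.all false

namespace Pool.Agent.H123Z.GSC

open Finset PowerSeries

variable {ι G : Type} [Fintype ι] [DecidableEq ι] [Group G] [Fintype G]

/-- Matrices with nonnegative coordinates. -/
def NN (ι G : Type) [Fintype ι] [DecidableEq ι] [Group G] [Fintype G] : Subsemiring (MA ι G) where
  carrier := {X | ∀ i j g, 0 ≤ (X i j).coeff g}
  mul_mem' := by
    intro X Y hX hY i j g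
    rw [Matrix.mul_apply, MonoidAlgebra.coeff_sum, Finsupp.finset_sum_apply]
    refine Finset.sum_nonneg fun l _ => ?_
    rw [coeff_mul_sum]
    exact Finset.sum_nonneg fun h _ => mul_nonneg (hX _ _ _) (hY _ _ _)
  one_mem' := by
    intro i j g
    rw [Matrix.one_apply]
    split_ifs
    · classical
      rw [MonoidAlgebra.one_def, MonoidAlgebra.coeff_single, Finsupp.single_apply]
      split_ifs <;> norm_num
    · simp
  add_mem' := by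
    intro X Y hX hY i j g
    simpa using add_nonneg (hX i j g) (hY i j g)
  zero_mem' := by
    intro i j g
    simp

theorem mem_NN {X : MA ι G} : X ∈ NN ι G ↔ ∀ i j g, 0 ≤ (X i j).coeff g := Iff.rfl

/-- Integral matrices. -/
noncomputable def ZZ (ι G : Type) [Fintype ι] [DecidableEq ι] [Group G] [Fintype G] : Subring (MA ι G) :=
  (toR : MZ ι G →+* MA ι G).range

/-- The positive model attached to `A`. -/
def Model (o : ι) (A : MZ ι G) (lam ρ : ℝ) : Prop :=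
  ∃ (T Tf : (PowerSeries (MA ι G))ˣ) (a Q : PowerSeries (MA ι G)) (y c CU : ℝ) (k2 : ℕ),
    (T : PowerSeries (MA ι G)) ∈ cfr (ZZ ι G) ∧
    ((T⁻¹ : (PowerSeries (MA ι G))ˣ) : PowerSeries (MA ι G)) ∈ cfr (ZZ ι G) ∧
    coeff 0 (T : PowerSeries (MA ι G)) = 1 ∧
    (∀ k, tau (ctr G o) T k = if k = 0 then 0 else -ctr G o (toR A ^ k)) ∧
    (T : PowerSeries (MA ι G)) =
      (Tf : PowerSeries (MA ι G)) * (1 - X * C (Matrix.single o o (lam • ebar G)) - a) ∧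
    a * C (Matrix.single o o 1) = a ∧ C (Matrix.single o o 1) * a = 0 ∧ Van 1 a ∧
    (∃ b, Bd ρ a b) ∧ (∃ b, Bd ρ (Tf : PowerSeries (MA ι G)) b) ∧
    (∃ b, Bd ρ ((Tf⁻¹ : (PowerSeries (MA ι G))ˣ) : PowerSeries (MA ι G)) b) ∧
    Q ∈ cfr (ZZ ι G) ∧ FinS Q ∧ Q ∈ cf (NN ι G) ∧ Van 1 Q ∧
    (∀ j, ∃ k i g, 0 < (coeff k Q i j).coeff g) ∧
    0 < y ∧ y ≤ ρ ∧ 0 < c ∧ (∀ k, ‖coeff k (iv Q)‖ * y ^ k ≤ CU) ∧
    1 - (T : PowerSeries (MA ι G)) * iv Q ∈ cf (NN ι G) ∧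
    ∀ k, k2 ≤ k → ∀ i j g, c ≤ ((coeff k (1 - (T : PowerSeries (MA ι G)) * iv Q : PowerSeries (MA ι G)) : MA ι G) i j).coeff g * y ^ k

/-- The approximation theorem for matrices over the group ring. -/
def ThmUC (G : Type) [Group G] [Fintype G] (o : ι) (ρ : ℝ) : Prop :=
  ∀ U : (PowerSeries (MA ι G))ˣ, coeff 0 (U : PowerSeries (MA ι G)) = 1 →
    (U : PowerSeries (MA ι G)) ∈ cfr (ZZ ι G) → (∃ b, Bd ρ (U : PowerSeries (MA ι G)) b) →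
    (∃ b, Bd ρ ((U⁻¹ : (PowerSeries (MA ι G))ˣ) : PowerSeries (MA ι G)) b) →
    (∀ k, tau (ctr G o) U k = 0) → ∀ (K : ℕ) (η : ℝ), 0 < η →
    ∃ E : (PowerSeries (MA ι G))ˣ, Gam (ZZ ι G) (ctr G o) E ∧
      Van K ((E : PowerSeries (MA ι G)) * (U : PowerSeries (MA ι G)) - 1) ∧
      Bd ρ ((E : PowerSeries (MA ι G)) * (U : PowerSeries (MA ι G)) - 1) η

/-- The data from which a primitive matrix is built. -/
def Fact (B : MZ ι G) : Prop :=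
  ∃ (E E' H H' Q : Polynomial (MZ ι G)) (F : PowerSeries (MZ ι G)) (K : ℕ),
    E * E' = 1 ∧ E' * E = 1 ∧ H * H' = 1 ∧ H' * H = 1 ∧
    ((E * (1 - Polynomial.X * Polynomial.C B) * H : Polynomial (MZ ι G)) : PowerSeries (MZ ι G)) =
      (1 - F) * (1 - (Q : PowerSeries (MZ ι G))) ∧
    coeff 0 F = 0 ∧ (∀ k i j g, 0 ≤ (coeff k F i j).coeff g) ∧
    (∀ k, K ≤ k → ∀ i j g, 0 < (coeff k F i j).coeff g) ∧
    Q.coeff 0 = 0 ∧ (∀ k i j g, 0 ≤ (Q.coeff k i j).coeff g) ∧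
    ∀ j, ∃ k i g, 0 < (Q.coeff k i j).coeff g

/-- Shift equivalence to a primitive matrix. -/
def Rlz (B : MZ ι G) : Prop :=
  ∃ (n : ℕ) (C : Matrix (Fin n) (Fin n) (MonoidAlgebra ℤ G)), 0 < n ∧
    (∀ i j g, 0 ≤ (C i j).coeff g) ∧ (∃ p : ℕ, 0 < p ∧ ∀ i j g, 0 < ((C ^ p) i j).coeff g) ∧
    ∃ (l : ℕ) (R : Matrix ι (Fin n) (MonoidAlgebra ℤ G)) (S : Matrix (Fin n) ι (MonoidAlgebra ℤ G)),
      0 < l ∧ B * R = R * C ∧ S * B = C * S ∧ R * S = B ^ l ∧ S * R = C ^ l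

/-- The main step, for two matrices on a common index set with a spare index. -/
def Core : Prop :=
  ∀ (ι G : Type) [Fintype ι] [DecidableEq ι] [Group G] [Fintype G] (o o' : ι) (A B : MZ ι G)
    (lam ρ : ℝ) (kA : ℕ) (v w : ι → ℝ), o ≠ o' → 0 < ρ → ρ < 1 → 1 < lam * ρ →
    (∀ i j g, 0 ≤ (A i j).coeff g) → (∀ i, A i o' = 0 ∧ A o' i = 0) →
    (∀ k, kA ≤ k → ∀ g, 0 < ((A ^ k) o o).coeff g) →
    v o = 1 → w o = 1 → (aug A).mulVec v = lam • v → (aug B).mulVec w = lam • w →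
    (Summable fun k : ℕ => ‖(toR A - colV G o lam v) ^ k‖ * ρ ^ k) →
    (Summable fun k : ℕ => ‖(toR B - colV G o lam w) ^ k‖ * ρ ^ k) →
    (Summable fun k : ℕ => ‖(toR (cut o A)) ^ k‖ * ρ ^ k) →
    (∀ k, 0 < k → ctr G o (toR A ^ k) = ctr G o (toR B ^ k)) → Rlz B

/-- The Perron side. -/
def ASide : Prop :=
  ∀ (ι G : Type) [Fintype ι] [DecidableEq ι] [Group G] [Fintype G] (A : MZ ι G) (o : ι),
    (∀ i j g, 0 ≤ (A i j).coeff g) → ∀ p : ℕ, 0 < p → (∀ i j g, 0 < ((A ^ p) i j).coeff g) →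
    (Subsingleton G ∧ ∀ k, 0 < k → (Matrix.trace (A ^ k)).coeff 1 = 1) ∨
    ∃ (lam ρ : ℝ) (v : ι → ℝ), 0 < ρ ∧ ρ < 1 ∧ 1 < lam * ρ ∧ v o = 1 ∧
      (aug A).mulVec v = lam • v ∧
      (Summable fun k : ℕ => ‖(toR A - colV G o lam v) ^ k‖ * ρ ^ k) ∧
      (Summable fun k : ℕ => ‖(toR (cut o A)) ^ k‖ * ρ ^ k) ∧
      ∀ k, p ≤ k → ∀ i j g, 0 < ((A ^ k) i j).coeff g

/-- The spectral side for the second matrix. -/
def BSide : Prop :=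
  ∀ (ι₁ ι₂ G : Type) [Fintype ι₁] [DecidableEq ι₁] [Fintype ι₂] [DecidableEq ι₂]
    [Group G] [Fintype G] (A : MZ ι₁ G) (B : MZ ι₂ G),
    (∀ k, 0 < k → (Matrix.trace (A ^ k)).coeff 1 = (Matrix.trace (B ^ k)).coeff 1) →
    (∀ k, 0 < k → ∑ g, (Matrix.trace (A ^ k)).coeff g = ∑ g, (Matrix.trace (B ^ k)).coeff g) →
    ∀ (o : ι₁) (lam : ℝ), lam ≠ 0 → ∀ v : ι₁ → ℝ, v o = 1 → (aug A).mulVec v = lam • v →
    ∀ ρ : ℝ, 0 < ρ → (Summable fun k : ℕ => ‖(toR A - colV G o lam v) ^ k‖ * ρ ^ k) →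
    ∃ (j : ι₂) (w : ι₂ → ℝ), w j = 1 ∧ (aug B).mulVec w = lam • w ∧
      Summable fun k : ℕ => ‖(toR B - colV G j lam w) ^ k‖ * ρ ^ k

end Pool.Agent.H123Z.GSC
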